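import Mathlib
import Pool.Agent.TH876.FH.Def

/-!
# Growth of the Faltings height with the dimension: definitions and statements of the parts

`D τ` is the discriminant form. `dbl τ = 2 τ`, `hlf τ = τ / 2`, `hlf1 τ = (τ + 1) / 2`.
`fa τ = 4096 Δ(2 τ) / Δ(τ)`, `fb τ = Δ(τ / 2) / Δ(τ)`, `fc τ = Δ((τ + 1) / 2) / Δ(τ)`.
`JJ t = 256 (t ^ 2 - t + 1) ^ 3 / (t ^ 2 (1 - t) ^ 2)` is the modular invariant of
`y ^ 2 = x (x - 1) (x - t)`, and `NN t = 16 (1 + 14 t + t ^ 2) ^ 3 / (t (1 - t) ^ 4)` the modular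
invariant of its quotient by `(0, 0)`.
-/

set_option autoImplicit false

namespace Pool.Agent.K3h84.GD

open UpperHalfPlane ModularForm NumberField IsDedekindDomain Filter Topology
open Pool.Agent.TH876.FH (jInv arch)
open scoped MatrixGroups Manifold

/-- `2 τ` -/
noncomputable def dbl (τ : ℍ) : ℍ :=
  ⟨2 * (τ : ℂ), by
    have := τ.im_pos
    simp only [Complex.mul_im, Complex.re_ofNat, Complex.im_ofNat]
    rw [UpperHalfPlane.coe_im]
    linarith⟩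

/-- `τ / 2` -/
noncomputable def hlf (τ : ℍ) : ℍ :=
  ⟨(τ : ℂ) * (1 / 2 : ℝ), by
    have := τ.im_pos
    simp only [Complex.mul_im, Complex.ofReal_re, Complex.ofReal_im]
    rw [UpperHalfPlane.coe_im]
    linarith⟩

/-- `(τ + 1) / 2` -/
noncomputable def hlf1 (τ : ℍ) : ℍ :=
  ⟨((τ : ℂ) + 1) * (1 / 2 : ℝ), by
    have := τ.im_pos
    simp only [Complex.mul_im, Complex.ofReal_re, Complex.ofReal_im, Complex.add_im,
      Complex.one_im]
    rw [UpperHalfPlane.coe_im]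
    linarith⟩

/-- `4096 Δ(2 τ) / Δ(τ)` -/
noncomputable def fa (τ : ℍ) : ℂ := 4096 * discriminant (dbl τ) / discriminant τ

/-- `Δ(τ / 2) / Δ(τ)` -/
noncomputable def fb (τ : ℍ) : ℂ := discriminant (hlf τ) / discriminant τ

/-- `Δ((τ + 1) / 2) / Δ(τ)` -/
noncomputable def fc (τ : ℍ) : ℂ := discriminant (hlf1 τ) / discriminant τ

/-- the modular invariant of `y ^ 2 = x (x - 1) (x - t)` -/
def JJ {K : Type*} [Field K] (t : K) : K := 256 * (t ^ 2 - t + 1) ^ 3 / (t ^ 2 * (1 - t) ^ 2)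

/-- the modular invariant of its quotient by the point `(0, 0)` -/
def NN {K : Type*} [Field K] (t : K) : K := 16 * (1 + 14 * t + t ^ 2) ^ 3 / (t * (1 - t) ^ 4)

/-! ### Analytic parts -/

/-- CONST: a holomorphic invariant function with a limit at `i ∞` is constant -/
def S_CONST : Prop := ∀ (f : ℍ → ℂ) (c : ℂ), MDifferentiable 𝓘(ℂ) 𝓘(ℂ) f →
  (∀ (g : SL(2, ℤ)) (τ : ℍ), f (g • τ) = f τ) → Tendsto f atImInfty (𝓝 c) → ∀ τ, f τ = c

/-- TRANS: `SL(2, ℤ)` permutes the three functions -/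
def S_TRANS : Prop := ∀ τ : ℍ,
  (fa (ModularGroup.T • τ) = fa τ ∧ fb (ModularGroup.T • τ) = fc τ ∧
    fc (ModularGroup.T • τ) = fb τ) ∧
  (fa (ModularGroup.S • τ) = fb τ ∧ fb (ModularGroup.S • τ) = fa τ ∧
    fc (ModularGroup.S • τ) = fc τ)

/-- HOL: they are holomorphic -/
def S_HOL : Prop := MDifferentiable 𝓘(ℂ) 𝓘(ℂ) fa ∧ MDifferentiable 𝓘(ℂ) 𝓘(ℂ) fb ∧
  MDifferentiable 𝓘(ℂ) 𝓘(ℂ) fc

/-- PROD: `2 ^ 12 Δ(2 τ) Δ(τ / 2) Δ((τ + 1) / 2) = - 2 ^ 12 Δ(τ) ^ 3` -/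
def S_PROD : Prop := ∀ τ : ℍ, fa τ * fb τ * fc τ = -4096

/-- LIM1: the limit of the sum -/
def S_LIM1 : Prop := Tendsto (fun τ => fa τ + fb τ + fc τ) atImInfty (𝓝 (-48))

/-- LIM2: the limit of the sum of the inverses minus `j` -/
def S_LIM2 : Prop := Tendsto (fun τ => 4096 * (1 / fa τ + 1 / fb τ + 1 / fc τ) - jInv τ)
  atImInfty (𝓝 (-768))

/-- ROOT: with `h(τ) = Δ(τ) / Δ(2 τ)` the solutions of `(h + 256) ^ 3 = j(τ) h ^ 2` are the values
of `h` at the points equivalent to `τ`, and `j(2 τ) h = (h + 16) ^ 3` -/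
def S_ROOT : Prop := ∀ (τ : ℍ) (h : ℂ), (h + 256) ^ 3 = jInv τ * h ^ 2 →
  ∃ g : SL(2, ℤ), discriminant (g • τ) = h * discriminant (dbl (g • τ)) ∧
    jInv (dbl (g • τ)) * h = (h + 16) ^ 3

/-- ROOT2: the same equations for `h = Δ(τ) / Δ(2 τ)` itself -/
def S_ROOT2 : Prop := ∀ (τ : ℍ) (h : ℂ), discriminant τ = h * discriminant (dbl τ) →
  (h + 256) ^ 3 = jInv τ * h ^ 2 ∧ jInv (dbl τ) * h = (h + 16) ^ 3

/-- ASY: near the cusp the archimedean term is determined by the size of the invariant -/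
def S_ASY : Prop := ∀ ε : ℝ, 0 < ε → ∃ Y : ℝ, ∀ τ τ' : ℍ, Y ≤ τ.im → Y ≤ τ'.im →
  ‖jInv τ‖ = ‖jInv τ'‖ → |arch τ - arch τ'| ≤ ε

/-- LARGE: a large invariant comes from a point with large imaginary part -/
def S_LARGE : Prop := ∀ Y : ℝ, ∃ R : ℝ, ∀ τ : ℍ, R ≤ ‖jInv τ‖ → ∃ g : SL(2, ℤ), Y ≤ (g • τ).im

/-- WD: the archimedean term depends on the invariant only -/
def S_WD : Prop := ∀ τ τ' : ℍ, jInv τ = jInv τ' → arch τ = arch τ'

/-- CONJ: complex conjugation -/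
def S_CONJ : Prop := ∀ τ : ℍ, ∃ τ' : ℍ, jInv τ' = (starRingEnd ℂ) (jInv τ) ∧ arch τ' = arch τ

/-! ### Arithmetic parts -/

/-- FIN: the local inequality at a nonarchimedean absolute value -/
def S_FIN : Prop := ∀ (K : Type) [Field K] [CharZero K] (f : AbsoluteValue K ℝ),
  IsNonarchimedean f → ∀ t : K, t ≠ 0 → t ≠ 1 →
  3 * Real.log (max (f (JJ t)) 1) ≤ Real.log (max (f (NN t)) 1) +
    Real.log (max (f (NN (1 - t))) 1) + Real.log (max (f (NN (t / (t - 1)))) 1)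

/-- EXTF: the finite part of the height in an extension -/
def S_EXTF : Prop := ∀ (L M : Type) [Field L] [NumberField L] [Field M] [NumberField M]
  [Algebra L M] (x : L),
  ∑ᶠ v : HeightOneSpectrum (𝓞 M), Real.log (max (FinitePlace.mk v (algebraMap L M x)) 1) =
    Module.finrank L M *
      ∑ᶠ v : HeightOneSpectrum (𝓞 L), Real.log (max (FinitePlace.mk v x) 1)

/-- EXTI: the infinite part of the height in an extension -/
def S_EXTI : Prop := ∀ (F : ℂ → ℝ), (∀ z, F ((starRingEnd ℂ) z) = F z) →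
  ∀ (L M : Type) [Field L] [NumberField L] [Field M] [NumberField M] [Algebra L M] (x : L),
  ∑ w : InfinitePlace M, (w.mult : ℝ) * F (w.embedding (algebraMap L M x)) =
    Module.finrank L M * ∑ w : InfinitePlace L, (w.mult : ℝ) * F (w.embedding x)

/-- UNR: the square root of a number which is a unit above `p` is unramified above `p ≠ 2` -/
def S_UNR : Prop := ∀ (L : Type) [Field L] [NumberField L] (t : L), t ≠ 0 →
  ∃ (M : Type) (_ : Field M) (_ : NumberField M) (_ : Algebra L M) (s : M),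
    Module.finrank L M ≤ 2 ∧ s ^ 2 = algebraMap L M t ∧
    ∀ p : ℕ, p.Prime → p ≠ 2 → ¬ (p : ℤ) ∣ discr L →
      (∀ v : HeightOneSpectrum (𝓞 L), (p : 𝓞 L) ∈ v.asIdeal → v.valuation L t = 1) →
      ¬ (p : ℤ) ∣ discr M

/-- NUM: the numerical part. Pieces of size `d k ≤ 2 ^ k` and weight at least
`d k (a + k log 2 / 2 - b)` can be combined to a total size `g` and a total weight at least
`g a + g log g / 2 - C g`. -/
def S_NUM : Prop := ∀ b : ℝ, ∃ C : ℝ, ∀ (a : ℝ) (d : ℕ → ℕ) (x : ℕ → ℝ),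
  (∀ k, 1 ≤ d k) → (∀ k, d k ≤ 2 ^ k) →
  (∀ k, (d k : ℝ) * (a + k * Real.log 2 / 2 - b) ≤ x k) →
  ∀ g : ℕ, ∃ l : List ℕ, (l.map d).sum = g ∧
    g * a + g * Real.log g / 2 - C * g ≤ (l.map x).sum

end Pool.Agent.K3h84.GD
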