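import Mathlib
import Pool.Agent.K3h84.GD.Stm
import Pool.Agent.Y729.FW.Surj

/-!
# The archimedean term as a function of the invariant, and the three isogenies of degree two
-/

set_option autoImplicit false

namespace Pool.Agent.K3h84.GD

open UpperHalfPlane ModularForm NumberField Filter Topology
open Pool.Agent.TH876.FH (jInv arch)
open scoped MatrixGroups

/-- the archimedean term as a function of the invariant -/
noncomputable def FF (z : ℂ) : ℝ := arch (Classical.choose (Pool.Agent.Y729.FW.j_surj z))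

theorem FF_eq (hW : S_WD) (τ : ℍ) : FF (jInv τ) = arch τ :=
  hW _ _ (Classical.choose_spec (Pool.Agent.Y729.FW.j_surj (jInv τ)))

theorem FF_conj (hW : S_WD) (hC : S_CONJ) (z : ℂ) : FF ((starRingEnd ℂ) z) = FF z := by
  obtain ⟨τ, rfl⟩ := Pool.Agent.Y729.FW.j_surj z
  obtain ⟨τ', h1, h2⟩ := hC τ
  rw [← h1, FF_eq hW, FF_eq hW, h2]

theorem dbl_im (τ : ℍ) : (dbl τ).im = 2 * τ.im := by
  show (2 * (τ : ℂ)).im = 2 * τ.im
  simp

theorem arch_dbl (τ : ℍ) (h : ℂ) (hh : discriminant τ = h * discriminant (dbl τ)) :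
    arch (dbl τ) = arch τ - 6 * Real.log 2 + Real.log ‖h‖ := by
  have nd := norm_pos_iff.2 (discriminant_ne_zero τ)
  have nd2 := norm_pos_iff.2 (discriminant_ne_zero (dbl τ))
  have hne : h ≠ 0 := by
    rintro rfl
    rw [zero_mul] at hh
    exact discriminant_ne_zero τ hh
  have hp := norm_pos_iff.2 hne
  have p := τ.im_pos
  unfold arch
  rw [dbl_im, hh, norm_mul, Real.log_mul nd2.ne' (by positivity),
    Real.log_mul (mul_pos hp nd2).ne' (by positivity), Real.log_mul hp.ne' nd2.ne', Real.log_pow,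
    Real.log_pow, Real.log_mul two_ne_zero p.ne']
  push_cast
  ring

/-- one isogeny of degree two -/
theorem FF_NN (hW : S_WD) (hR : S_ROOT) (t : ℂ) (h0 : t ≠ 0) (h1 : t ≠ 1) :
    FF (NN t) = FF (JJ t) - 6 * Real.log 2 + Real.log ‖256 * t / (1 - t) ^ 2‖ := by
  have h2 : 1 - t ≠ 0 := sub_ne_zero.2 (Ne.symm h1)
  set h : ℂ := 256 * t / (1 - t) ^ 2 with hh
  have hne : h ≠ 0 := div_ne_zero (mul_ne_zero (by norm_num) h0) (pow_ne_zero 2 h2)
  have e1 : (h + 256) ^ 3 = JJ t * h ^ 2 := by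
    rw [hh, JJ]
    field_simp
    ring
  have e2 : NN t * h = (h + 16) ^ 3 := by
    rw [hh, NN]
    field_simp
    ring
  obtain ⟨τ, hτ⟩ := Pool.Agent.Y729.FW.j_surj (JJ t)
  obtain ⟨g, hg1, hg2⟩ := hR τ h (by rw [hτ, e1])
  have e3 : jInv (dbl (g • τ)) = NN t := mul_right_cancel₀ hne (by rw [hg2, e2])
  rw [← e3, FF_eq hW, arch_dbl _ h hg1, ← hτ, FF_eq hW,
    hW (g • τ) τ (Pool.Agent.Y729.FW.j_smul g τ)]

/-- the three isogenies of degree two together -/
theorem FF_sum (hW : S_WD) (hR : S_ROOT) (t : ℂ) (h0 : t ≠ 0) (h1 : t ≠ 1) :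
    FF (NN t) + FF (NN (1 - t)) + FF (NN (t / (t - 1))) = 3 * FF (JJ t) + 6 * Real.log 2 := by
  have h2 : 1 - t ≠ 0 := sub_ne_zero.2 (Ne.symm h1)
  have h3 : t - 1 ≠ 0 := sub_ne_zero.2 h1
  have j1 : (JJ (1 - t) : ℂ) = JJ t := by
    unfold JJ
    congr 1 <;> ring
  have j2 : (JJ (t / (t - 1)) : ℂ) = JJ t := by
    unfold JJ
    have : 1 - t / (t - 1) = -1 / (t - 1) := by
      field_simp
      ring
    rw [this, div_eq_div_iff, ]
    · field_simp
      ring
    · refine mul_ne_zero (pow_ne_zero 2 (div_ne_zero h0 h3)) (pow_ne_zero 2 (div_ne_zero ?_ h3))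
      norm_num
    · exact mul_ne_zero (pow_ne_zero 2 h0) (pow_ne_zero 2 h2)
  have n1 : t / (t - 1) ≠ 0 := div_ne_zero h0 h3
  have n2 : t / (t - 1) ≠ 1 := by
    intro h
    rw [div_eq_one_iff_eq h3] at h
    have : (1 : ℂ) = 0 := by linear_combination h
    exact one_ne_zero this
  rw [FF_NN hW hR t h0 h1, FF_NN hW hR (1 - t) h2 (fun h => h0 (by linear_combination -h)),
    FF_NN hW hR _ n1 n2, j1, j2]
  have e1 : (256 * t / (1 - t) ^ 2) * (256 * (1 - t) / (1 - (1 - t)) ^ 2) *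
      (256 * (t / (t - 1)) / (1 - t / (t - 1)) ^ 2) = -16777216 := by
    have : 1 - t / (t - 1) = -1 / (t - 1) := by
      field_simp
      ring
    rw [this, show 1 - (1 - t) = t by ring]
    field_simp
    ring
  have p1 : (256 * t / (1 - t) ^ 2) ≠ 0 :=
    div_ne_zero (mul_ne_zero (by norm_num) h0) (pow_ne_zero 2 h2)
  have p2 : (256 * (1 - t) / (1 - (1 - t)) ^ 2) ≠ 0 := by
    refine div_ne_zero (mul_ne_zero (by norm_num) h2) (pow_ne_zero 2 ?_)
    rw [sub_sub_cancel]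
    exact h0
  have p3 : (256 * (t / (t - 1)) / (1 - t / (t - 1)) ^ 2) ≠ 0 :=
    div_ne_zero (mul_ne_zero (by norm_num) n1) (pow_ne_zero 2 (sub_ne_zero.2 (Ne.symm n2)))
  have e2 : Real.log ‖256 * t / (1 - t) ^ 2‖ + Real.log ‖256 * (1 - t) / (1 - (1 - t)) ^ 2‖ +
      Real.log ‖256 * (t / (t - 1)) / (1 - t / (t - 1)) ^ 2‖ = 24 * Real.log 2 := by
    rw [← Real.log_mul (norm_ne_zero_iff.2 p1) (norm_ne_zero_iff.2 p2),
      ← Real.log_mul (mul_ne_zero (norm_ne_zero_iff.2 p1) (norm_ne_zero_iff.2 p2))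
        (norm_ne_zero_iff.2 p3), ← norm_mul, ← norm_mul, e1]
    have : ‖(-16777216 : ℂ)‖ = 2 ^ 24 := by
      rw [norm_neg]
      norm_num
    rw [this, Real.log_pow]
    norm_num
  linarith

end Pool.Agent.K3h84.GD
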