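import Mathlib
import Pool.Agent.K3h84.GD.Arch

/-!
# The height of the invariant `j`, and the three isogenies of degree two over a number field
-/

set_option autoImplicit false

namespace Pool.Agent.K3h84.GD

open NumberField IsDedekindDomain

/-- `12 [L : ℚ]` times the stable Faltings height, as a function of the invariant -/
noncomputable def HT (L : Type) [Field L] [NumberField L] (x : L) : ℝ :=
  ∑ᶠ v : HeightOneSpectrum (𝓞 L), Real.log (max (FinitePlace.mk v x) 1) +
    ∑ w : InfinitePlace L, (w.mult : ℝ) * FF (w.embedding x)

theorem fin_supp (L : Type) [Field L] [NumberField L] (x : L) :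
    (Function.support fun v : HeightOneSpectrum (𝓞 L) =>
      Real.log (max (FinitePlace.mk v x) 1)).Finite := by
  rcases eq_or_ne x 0 with rfl | hx
  · convert Set.finite_empty
    rw [Function.support_eq_empty_iff]
    funext v
    simp
  · have h1 := (FinitePlace.mulSupport_finite hx).preimage
      (f := fun v : HeightOneSpectrum (𝓞 L) => FinitePlace.mk v)
      (FinitePlace.equivHeightOneSpectrum.symm.injective.injOn)
    refine h1.subset fun v hv => ?_
    rw [Function.mem_support] at hv
    rw [Set.mem_preimage, Function.mem_mulSupport]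
    intro h
    apply hv
    rw [h, max_self, Real.log_one]

theorem HT_step (hW : S_WD) (hR : S_ROOT) (hF : S_FIN) (L : Type) [Field L] [NumberField L]
    (t : L) (h0 : t ≠ 0) (h1 : t ≠ 1) :
    3 * HT L (JJ t) + 6 * Real.log 2 * Module.finrank ℚ L ≤
      HT L (NN t) + HT L (NN (1 - t)) + HT L (NN (t / (t - 1))) := by
  have hfin : 3 * ∑ᶠ v : HeightOneSpectrum (𝓞 L), Real.log (max (FinitePlace.mk v (JJ t)) 1) ≤
      ∑ᶠ v : HeightOneSpectrum (𝓞 L), Real.log (max (FinitePlace.mk v (NN t)) 1) +
      ∑ᶠ v : HeightOneSpectrum (𝓞 L), Real.log (max (FinitePlace.mk v (NN (1 - t))) 1) +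
      ∑ᶠ v : HeightOneSpectrum (𝓞 L), Real.log (max (FinitePlace.mk v (NN (t / (t - 1)))) 1) := by
    have s1 := fin_supp L (JJ t)
    have s2 := fin_supp L (NN t)
    have s3 := fin_supp L (NN (1 - t))
    have s4 := fin_supp L (NN (t / (t - 1)))
    rw [← finsum_add_distrib s2 s3, ← finsum_add_distrib
      ((s2.union s3).subset (Function.support_add _ _)) s4, ← smul_eq_mul (3 : ℝ), smul_finsum]
    refine finsum_le_finsum' ?_ ?_ fun v => ?_
    · refine s1.subset fun v hv => ?_
      rw [Function.mem_support] at hv ⊢
      intro h
      apply hv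
      simp only [h, smul_zero]
    · refine (((s2.union s3).union s4)).subset ?_
      refine (Function.support_add _ _).trans ?_
      exact Set.union_subset_union_left _ (Function.support_add _ _)
    · have := hF L (FinitePlace.mk v).1 ?_ t h0 h1
      · exact this
      · intro a b
        exact FinitePlace.add_le (FinitePlace.mk v) a b
  have hinf : 3 * ∑ w : InfinitePlace L, (w.mult : ℝ) * FF (w.embedding (JJ t)) +
      6 * Real.log 2 * Module.finrank ℚ L =
      ∑ w : InfinitePlace L, (w.mult : ℝ) * FF (w.embedding (NN t)) +
      ∑ w : InfinitePlace L, (w.mult : ℝ) * FF (w.embedding (NN (1 - t))) +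
      ∑ w : InfinitePlace L, (w.mult : ℝ) * FF (w.embedding (NN (t / (t - 1)))) := by
    rw [← InfinitePlace.sum_mult_eq, ← Finset.sum_add_distrib, ← Finset.sum_add_distrib,
      Finset.mul_sum]
    push_cast
    rw [Finset.mul_sum, ← Finset.sum_add_distrib]
    refine Finset.sum_congr rfl fun w _ => ?_
    have e0 : w.embedding t ≠ 0 := (map_ne_zero _).2 h0
    have e1 : w.embedding t ≠ 1 := by
      intro h
      apply h1
      apply w.embedding.injective
      rw [h, map_one]
    have key := FF_sum hW hR (w.embedding t) e0 e1
    have a1 : w.embedding (NN t) = NN (w.embedding t) := by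
      unfold NN
      simp only [map_div₀, map_mul, map_pow, map_add, map_sub, map_one, map_ofNat]
    have a2 : w.embedding (NN (1 - t)) = NN (1 - w.embedding t) := by
      unfold NN
      simp only [map_div₀, map_mul, map_pow, map_add, map_sub, map_one, map_ofNat]
    have a3 : w.embedding (NN (t / (t - 1))) = NN (w.embedding t / (w.embedding t - 1)) := by
      unfold NN
      simp only [map_div₀, map_mul, map_pow, map_add, map_sub, map_one, map_ofNat]
    have a4 : w.embedding (JJ t) = JJ (w.embedding t) := by
      unfold JJ
      simp only [map_div₀, map_mul, map_pow, map_add, map_sub, map_one, map_ofNat]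
    rw [a1, a2, a3, a4]
    linear_combination -(w.mult : ℝ) * key
  unfold HT
  linarith

theorem HT_ext (hW : S_WD) (hC : S_CONJ) (hE : S_EXTF) (hI : S_EXTI) (L M : Type) [Field L]
    [NumberField L] [Field M] [NumberField M] [Algebra L M] (x : L) :
    HT M (algebraMap L M x) = Module.finrank L M * HT L x := by
  unfold HT
  rw [hE L M x, hI FF (FF_conj hW hC) L M x, mul_add]

end Pool.Agent.K3h84.GD
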