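import Mathlib
import Pool.Agent.K3h84.GD.Height

/-!
# Towers of isogenies of degree two
-/

set_option autoImplicit false
set_option linter.unusedSectionVars false

namespace Pool.Agent.K3h84.GD

open NumberField IsDedekindDomain

/-- `x` is integral above `p` -/
def PI (p : ℕ) {L : Type} [Field L] (x : L) : Prop :=
  ∃ n : ℕ, ¬ p ∣ n ∧ IsIntegral ℤ ((n : L) * x)

/-- `x` is a unit above `p` -/
def PU (p : ℕ) {L : Type} [Field L] (x : L) : Prop := PI p x ∧ PI p x⁻¹

section Int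

variable {p : ℕ} {L : Type} [Field L]

theorem PI.mul (hp : p.Prime) {x y : L} (hx : PI p x) (hy : PI p y) : PI p (x * y) := by
  obtain ⟨n, hn, h1⟩ := hx
  obtain ⟨m, hm, h2⟩ := hy
  refine ⟨n * m, fun h => ?_, ?_⟩
  · rcases (Nat.Prime.dvd_mul hp).1 h with h | h
    · exact hn h
    · exact hm h
  · have := h1.mul h2
    rwa [show (n : L) * x * ((m : L) * y) = ((n * m : ℕ) : L) * (x * y) by push_cast; ring] at this

theorem PI.add (hp : p.Prime) {x y : L} (hx : PI p x) (hy : PI p y) : PI p (x + y) := by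
  obtain ⟨n, hn, h1⟩ := hx
  obtain ⟨m, hm, h2⟩ := hy
  refine ⟨n * m, fun h => ?_, ?_⟩
  · rcases (Nat.Prime.dvd_mul hp).1 h with h | h
    · exact hn h
    · exact hm h
  · have i1 : IsIntegral ℤ ((m : ℕ) : L) := by
      have := isIntegral_algebraMap (R := ℤ) (A := L) (x := (m : ℤ))
      simpa using this
    have i2 : IsIntegral ℤ ((n : ℕ) : L) := by
      have := isIntegral_algebraMap (R := ℤ) (A := L) (x := (n : ℤ))
      simpa using this
    have := (i1.mul h1).add (i2.mul h2)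
    rwa [show ((m : ℕ) : L) * ((n : L) * x) + ((n : ℕ) : L) * ((m : L) * y) =
      ((n * m : ℕ) : L) * (x + y) by push_cast; ring] at this

theorem PI.neg {x : L} (hx : PI p x) : PI p (-x) := by
  obtain ⟨n, hn, h1⟩ := hx
  exact ⟨n, hn, by rw [mul_neg]; exact h1.neg⟩

theorem PI.one (hp : p.Prime) : PI p (1 : L) :=
  ⟨1, fun h => hp.one_lt.ne' (Nat.dvd_one.1 h), by simpa using isIntegral_one⟩

theorem PI.sq {x : L} (hx : PI p (x ^ 2)) : PI p x := by
  obtain ⟨n, hn, h1⟩ := hx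
  refine ⟨n, hn, ?_⟩
  have i2 : IsIntegral ℤ ((n : ℕ) : L) := by
    have := isIntegral_algebraMap (R := ℤ) (A := L) (x := (n : ℤ))
    simpa using this
  have : IsIntegral ℤ (((n : L) * x) ^ 2) := by
    have := i2.mul h1
    rwa [show ((n : ℕ) : L) * ((n : L) * x ^ 2) = ((n : L) * x) ^ 2 by ring] at this
  exact IsIntegral.of_pow (by norm_num) this

theorem PI.map {M : Type} [Field M] (f : L →+* M) {x : L} (hx : PI p x) : PI p (f x) := by
  obtain ⟨n, hn, h1⟩ := hx
  refine ⟨n, hn, ?_⟩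
  have := h1.map (f.toIntAlgHom)
  simpa using this

theorem PU.mul (hp : p.Prime) {x y : L} (hx : PU p x) (hy : PU p y) : PU p (x * y) :=
  ⟨hx.1.mul hp hy.1, by rw [mul_inv]; exact hx.2.mul hp hy.2⟩

theorem PU.inv {x : L} (hx : PU p x) : PU p x⁻¹ := ⟨hx.2, by rw [inv_inv]; exact hx.1⟩

theorem PU.div (hp : p.Prime) {x y : L} (hx : PU p x) (hy : PU p y) : PU p (x / y) := by
  rw [div_eq_mul_inv]
  exact hx.mul hp hy.inv

theorem PU.neg {x : L} (hx : PU p x) : PU p (-x) :=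
  ⟨hx.1.neg, by rw [inv_neg]; exact hx.2.neg⟩

theorem PU.sq {x : L} (hx : PU p (x ^ 2)) : PU p x :=
  ⟨hx.1.sq, PI.sq (by rw [inv_pow]; exact hx.2)⟩

theorem PU.pow (hp : p.Prime) {x : L} (hx : PU p x) : PU p (x ^ 2) := by
  rw [pow_two]
  exact hx.mul hp hx

theorem PU.map {M : Type} [Field M] (f : L →+* M) {x : L} (hx : PU p x) : PU p (f x) :=
  ⟨hx.1.map f, by rw [← map_inv₀]; exact hx.2.map f⟩

/-- both factors of a unit are units if they are integral -/
theorem PU.of_mul (hp : p.Prime) {x y : L} (hx : PI p x) (hy : PI p y) (h : PU p (x * y))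
    (hy0 : y ≠ 0) : PU p x := by
  refine ⟨hx, ?_⟩
  have := h.2.mul hp hy
  rwa [mul_inv, mul_assoc, inv_mul_cancel₀ hy0, mul_one] at this

theorem PU.nat (hp : p.Prime) [CharZero L] {n : ℕ} (hn : ¬ p ∣ n) : PU p (n : L) := by
  have hn0 : n ≠ 0 := by
    rintro rfl
    exact hn (dvd_zero p)
  refine ⟨⟨1, fun h => hp.one_lt.ne' (Nat.dvd_one.1 h), ?_⟩, ⟨n, hn, ?_⟩⟩
  · have := isIntegral_algebraMap (R := ℤ) (A := L) (x := (n : ℤ))
    simpa using this
  · rw [mul_inv_cancel₀ (Nat.cast_ne_zero.2 hn0)]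
    exact isIntegral_one

end Int

section Val

variable {p : ℕ} {L : Type} [Field L] [NumberField L]

theorem val_int (v : HeightOneSpectrum (𝓞 L)) {x : L} (hx : IsIntegral ℤ x) :
    v.valuation L x ≤ 1 :=
  v.valuation_le_one (⟨x, hx⟩ : 𝓞 L)

theorem not_mem (v : HeightOneSpectrum (𝓞 L)) (hp : p.Prime) (hv : (p : 𝓞 L) ∈ v.asIdeal)
    {n : ℕ} (hn : ¬ p ∣ n) : (n : 𝓞 L) ∉ v.asIdeal := by
  intro h
  have hco : IsCoprime (p : ℤ) (n : ℤ) :=
    Nat.isCoprime_iff_coprime.2 ((Nat.Prime.coprime_iff_not_dvd hp).2 hn)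
  obtain ⟨a, b, hab⟩ := hco
  have h1 : ((a * p + b * n : ℤ) : 𝓞 L) ∈ v.asIdeal := by
    push_cast
    exact v.asIdeal.add_mem (v.asIdeal.mul_mem_left _ hv) (v.asIdeal.mul_mem_left _ h)
  rw [hab] at h1
  have h2 : (1 : 𝓞 L) ∈ v.asIdeal := by simpa using h1
  exact v.isPrime.ne_top ((Ideal.eq_top_iff_one _).2 h2)

theorem val_nat (v : HeightOneSpectrum (𝓞 L)) {n : ℕ} (hn : (n : 𝓞 L) ∉ v.asIdeal) :
    v.valuation L (n : L) = 1 := by
  have h1 : v.valuation L (algebraMap (𝓞 L) L (n : 𝓞 L)) = 1 := by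
    refine le_antisymm (v.valuation_le_one _) (not_lt.1 fun h => hn ?_)
    exact (v.valuation_lt_one_iff_mem _).1 h
  simpa using h1

theorem PI.val (hp : p.Prime) (v : HeightOneSpectrum (𝓞 L)) (hv : (p : 𝓞 L) ∈ v.asIdeal) {x : L}
    (hx : PI p x) : v.valuation L x ≤ 1 := by
  obtain ⟨n, hn, h1⟩ := hx
  have h2 := val_int v h1
  rw [map_mul, val_nat v (not_mem v hp hv hn), one_mul] at h2
  exact h2

theorem PU.val (hp : p.Prime) (v : HeightOneSpectrum (𝓞 L)) (hv : (p : 𝓞 L) ∈ v.asIdeal) {x : L}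
    (hx : PU p x) (h0 : x ≠ 0) : v.valuation L x = 1 := by
  refine le_antisymm (hx.1.val hp v hv) ?_
  have h1 := hx.2.val hp v hv
  rw [map_inv₀] at h1
  have h2 : v.valuation L x ≠ 0 := (v.valuation L).ne_zero_iff.2 h0
  exact (inv_le_one₀ (zero_lt_iff.2 h2)).1 h1

end Val

/-- `t` and `1 - t` are units outside `N`, and `L` is unramified outside `N` -/
def Out (N : ℕ) (L : Type) [Field L] [NumberField L] (t : L) : Prop :=
  ∀ p : ℕ, p.Prime → ¬ p ∣ N → ¬ (p : ℤ) ∣ discr L ∧ PU p t ∧ PU p (1 - t)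

/-- one step of the tower -/
theorem lift (hU : S_UNR) (hW : S_WD) (hC : S_CONJ) (hE : S_EXTF) (hI : S_EXTI) {N : ℕ}
    (hN : 2 ∣ N) (L : Type) [Field L] [NumberField L] (t : L) (h0 : t ≠ 0) (h1 : t ≠ 1)
    (hO : Out N L t) : ∃ (M : Type) (_ : Field M) (_ : NumberField M) (t' : M) (d : ℕ),
      t' ≠ 0 ∧ t' ≠ 1 ∧ Out N M t' ∧ Module.finrank ℚ M = Module.finrank ℚ L * d ∧ d ≤ 2 ∧
      1 ≤ d ∧ HT M (JJ t') = d * HT L (NN t) ∧ HT M (NN (1 - t')) = d * HT L (JJ t) := by
  obtain ⟨M, hM1, hM2, hM3, s, hd, hs, hr⟩ := hU L t h0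
  have hn2 : ∀ p : ℕ, ¬ p ∣ N → p ≠ 2 := by
    rintro p hp rfl
    exact hp hN
  have hs0 : s ≠ 0 := by
    rintro rfl
    apply h0
    apply (algebraMap L M).injective
    rw [← hs, map_zero]
    ring
  have hs2 : s ^ 2 ≠ 1 := by
    intro h
    apply h1
    apply (algebraMap L M).injective
    rw [← hs, h, map_one]
  have hs3 : 1 + s ≠ 0 := by
    intro h
    apply hs2
    linear_combination (s - 1) * h
  have hs4 : 1 - s ≠ 0 := by
    intro h
    apply hs2
    linear_combination -(s + 1) * h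
  have hs5 : 1 - s ^ 2 ≠ 0 := by
    intro h
    apply hs2
    linear_combination -h
  have e1 : 1 - 4 * s / (1 + s) ^ 2 = ((1 - s) / (1 + s)) ^ 2 := by
    field_simp
    ring
  have e2 : (JJ (4 * s / (1 + s) ^ 2) : M) = algebraMap L M (NN t) := by
    have : algebraMap L M (NN t) = NN (s ^ 2) := by
      rw [hs]
      unfold NN
      simp only [map_div₀, map_mul, map_pow, map_add, map_sub, map_one, map_ofNat]
    rw [this]
    unfold JJ NN
    rw [e1]
    field_simp
    ring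
  have e3 : (NN (1 - 4 * s / (1 + s) ^ 2) : M) = algebraMap L M (JJ t) := by
    have : algebraMap L M (JJ t) = JJ (s ^ 2) := by
      rw [hs]
      unfold JJ
      simp only [map_div₀, map_mul, map_pow, map_add, map_sub, map_one, map_ofNat]
    rw [this]
    unfold JJ NN
    rw [e1]
    have e4 : 1 - ((1 - s) / (1 + s)) ^ 2 = 4 * s / (1 + s) ^ 2 := by
      rw [← e1]
      ring
    rw [e4]
    field_simp
    ring
  have hfin : FiniteDimensional L M := by
    have : FiniteDimensional ℚ M := inferInstance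
    exact Module.Finite.of_restrictScalars_finite ℚ L M
  refine ⟨M, hM1, hM2, 4 * s / (1 + s) ^ 2, Module.finrank L M, ?_, ?_, ?_, ?_, hd, ?_, ?_, ?_⟩
  · exact div_ne_zero (mul_ne_zero (by norm_num) hs0) (pow_ne_zero 2 hs3)
  · intro h
    rw [h, sub_self] at e1
    exact pow_ne_zero 2 (div_ne_zero hs4 hs3) e1.symm
  · intro p hp hpN
    obtain ⟨g1, g2, g3⟩ := hO p hp hpN
    have hps : PU p s := by
      apply PU.sq
      rw [hs]
      exact g2.map _
    have hpm : PU p ((1 + s) * (1 - s)) := by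
      have : (1 + s) * (1 - s) = algebraMap L M (1 - t) := by
        rw [map_sub, map_one, ← hs]
        ring
      rw [this]
      exact g3.map _
    have i1 : PI p (1 + s) := (PI.one hp).add hp hps.1
    have i2 : PI p (1 - s) := by
      rw [sub_eq_add_neg]
      exact (PI.one hp).add hp hps.1.neg
    have u1 : PU p (1 + s) := PU.of_mul hp i1 i2 hpm hs4
    have u2 : PU p (1 - s) := PU.of_mul hp i2 i1 (by rwa [mul_comm]) hs3
    have u4 : PU p (4 : M) := by
      have : ¬ p ∣ 4 := by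
        intro h
        have : p ∣ 2 ^ 2 := h
        exact hn2 p hpN ((Nat.prime_dvd_prime_iff_eq hp Nat.prime_two).1 (hp.dvd_of_dvd_pow this))
      have := PU.nat (L := M) hp this
      exact_mod_cast this
    refine ⟨hr p hp (hn2 p hpN) g1 fun v hv => g2.val hp v hv h0, ?_, ?_⟩
    · exact (u4.mul hp hps).div hp (u1.pow hp)
    · rw [e1]
      exact (u2.div hp u1).pow hp
  · rw [Module.finrank_mul_finrank]
  · exact Module.finrank_pos
  · rw [e2, HT_ext hW hC hE hI]
  · rw [e3, HT_ext hW hC hE hI]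

end Pool.Agent.K3h84.GD
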