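import Mathlib
import Pool.Agent.K3h84.GD.Tower

/-!
# Towers of isogenies of degree two: the heights
-/

set_option autoImplicit false

namespace Pool.Agent.K3h84.GD

open NumberField IsDedekindDomain

section Sym

variable {L : Type} [Field L]

theorem JJ_one_sub (t : L) : JJ (1 - t) = JJ t := by
  unfold JJ
  congr 1 <;> ring

theorem JJ_dual [CharZero L] (t : L) (h0 : t ≠ 0) (h1 : t ≠ 1) : JJ (t / (t - 1)) = JJ t := by
  have h2 : 1 - t ≠ 0 := sub_ne_zero.2 (Ne.symm h1)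
  have h3 : t - 1 ≠ 0 := sub_ne_zero.2 h1
  unfold JJ
  have : 1 - t / (t - 1) = -1 / (t - 1) := by
    field_simp
    ring
  rw [this, div_eq_div_iff]
  · field_simp
    ring
  · refine mul_ne_zero (pow_ne_zero 2 (div_ne_zero h0 h3)) (pow_ne_zero 2 (div_ne_zero ?_ h3))
    norm_num
  · exact mul_ne_zero (pow_ne_zero 2 h0) (pow_ne_zero 2 h2)

theorem dual_ne (t : L) (h0 : t ≠ 0) (h1 : t ≠ 1) : t / (t - 1) ≠ 0 ∧ t / (t - 1) ≠ 1 := by
  have h3 : t - 1 ≠ 0 := sub_ne_zero.2 h1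
  refine ⟨div_ne_zero h0 h3, fun h => ?_⟩
  rw [div_eq_one_iff_eq h3] at h
  have : (1 : L) = 0 := by linear_combination h
  exact one_ne_zero this

end Sym

theorem Out.one_sub {N : ℕ} {L : Type} [Field L] [NumberField L] {t : L} (h : Out N L t) :
    Out N L (1 - t) := by
  intro p hp hpN
  obtain ⟨a, b, c⟩ := h p hp hpN
  refine ⟨a, c, ?_⟩
  rw [sub_sub_cancel]
  exact b

theorem Out.dual {N : ℕ} {L : Type} [Field L] [NumberField L] {t : L} (h : Out N L t)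
    (h1 : t ≠ 1) : Out N L (t / (t - 1)) := by
  intro p hp hpN
  obtain ⟨a, b, c⟩ := h p hp hpN
  have h3 : t - 1 ≠ 0 := sub_ne_zero.2 h1
  have c' : PU p (t - 1) := by
    rw [← neg_sub]
    exact c.neg
  refine ⟨a, b.div hp c', ?_⟩
  have : 1 - t / (t - 1) = -(t - 1)⁻¹ := by
    field_simp
    ring
  rw [this]
  exact c'.inv.neg

/-- a member of the tower: `A` is the height at the bottom -/
def Mem (N : ℕ) (A : ℝ) (k : ℕ) : Prop :=
  ∃ (L : Type) (_ : Field L) (_ : NumberField L) (t : L), t ≠ 0 ∧ t ≠ 1 ∧ Out N L t ∧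
    Module.finrank ℚ L ≤ 2 ^ k ∧
    (A + (6 * k - 8 * (1 - (1 / 2 : ℝ) ^ k)) * Real.log 2) * Module.finrank ℚ L ≤ HT L (JJ t) ∧
    (6 - 8 * (1 / 2 : ℝ) ^ k) * Real.log 2 * Module.finrank ℚ L ≤
      HT L (JJ t) - HT L (NN (1 - t))

section

variable (hU : S_UNR) (hW : S_WD) (hC : S_CONJ) (hE : S_EXTF) (hI : S_EXTI) (hR : S_ROOT)
  (hF : S_FIN)

include hU hW hC hE hI in
/-- the common part of the steps -/
theorem mem_of {N : ℕ} (hN : 2 ∣ N) {A : ℝ} {k : ℕ} (L : Type) [Field L] [NumberField L]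
    (t u : L) (h0 : u ≠ 0) (h1 : u ≠ 1) (hO : Out N L u) (hJ : JJ u = JJ t)
    (hd : Module.finrank ℚ L ≤ 2 ^ k)
    (hA : (A + (6 * k - 8 * (1 - (1 / 2 : ℝ) ^ k)) * Real.log 2) * Module.finrank ℚ L ≤
      HT L (JJ t))
    (hB : (6 - 8 * (1 / 2 : ℝ) ^ (k + 1)) * Real.log 2 * Module.finrank ℚ L ≤
      HT L (NN u) - HT L (JJ t)) : Mem N A (k + 1) := by
  obtain ⟨M, hM1, hM2, t', d, g0, g1, g2, g3, g4, g5, g6, g7⟩ :=
    lift hU hW hC hE hI hN L u h0 h1 hO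
  refine ⟨M, hM1, hM2, t', g0, g1, g2, ?_, ?_, ?_⟩
  · rw [g3, pow_succ]
    exact Nat.mul_le_mul hd g4
  · rw [g3, g6]
    push_cast
    have hd0 : (0 : ℝ) ≤ d := Nat.cast_nonneg d
    have h3 := mul_le_mul_of_nonneg_left (add_le_add hA hB) hd0
    have h4 : (A + (6 * (k + 1 : ℝ) - 8 * (1 - (1 / 2 : ℝ) ^ (k + 1))) * Real.log 2) *
        (Module.finrank ℚ L * d) = d * ((A + (6 * k - 8 * (1 - (1 / 2 : ℝ) ^ k)) * Real.log 2) *
          Module.finrank ℚ L +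
        (6 - 8 * (1 / 2 : ℝ) ^ (k + 1)) * Real.log 2 * Module.finrank ℚ L) := by
      rw [pow_succ]
      ring
    rw [h4]
    refine h3.trans (le_of_eq ?_)
    ring
  · rw [g3, g6, g7, hJ]
    push_cast
    have hd0 : (0 : ℝ) ≤ d := Nat.cast_nonneg d
    have h3 := mul_le_mul_of_nonneg_left hB hd0
    calc (6 - 8 * (1 / 2 : ℝ) ^ (k + 1)) * Real.log 2 * (Module.finrank ℚ L * d) =
        d * ((6 - 8 * (1 / 2 : ℝ) ^ (k + 1)) * Real.log 2 * Module.finrank ℚ L) := by ring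
      _ ≤ _ := h3
      _ = _ := by ring

include hU hW hC hE hI hR hF in
theorem mem_one {N : ℕ} (hN : 2 ∣ N) (l : ℚ) (h0 : l ≠ 0) (h1 : l ≠ 1) (hO : Out N ℚ l) :
    Mem N (HT ℚ (JJ l)) 1 := by
  have key := HT_step hW hR hF ℚ l h0 h1
  rw [Module.finrank_self] at key
  push_cast at key
  have h2 : 1 - l ≠ 0 := sub_ne_zero.2 (Ne.symm h1)
  have h3 : 1 - l ≠ 1 := fun h => h0 (by linear_combination -h)
  have base : (HT ℚ (JJ l) + (6 * ((0 : ℕ) : ℝ) - 8 * (1 - (1 / 2 : ℝ) ^ 0)) * Real.log 2) *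
      Module.finrank ℚ ℚ ≤ HT ℚ (JJ l) := by
    rw [Module.finrank_self]
    push_cast
    linarith
  have hfr : Module.finrank ℚ ℚ ≤ 2 ^ 0 := by rw [Module.finrank_self, pow_zero]
  rcases le_total (HT ℚ (JJ l) + 2 * Real.log 2) (HT ℚ (NN l)) with h | h
  · refine mem_of hU hW hC hE hI hN (k := 0) ℚ l l h0 h1 hO rfl hfr base ?_
    rw [Module.finrank_self]
    push_cast
    linarith
  rcases le_total (HT ℚ (JJ l) + 2 * Real.log 2) (HT ℚ (NN (1 - l))) with h' | h'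
  · refine mem_of hU hW hC hE hI hN (k := 0) ℚ l (1 - l) h2 h3 hO.one_sub (JJ_one_sub l) hfr
      base ?_
    rw [Module.finrank_self]
    push_cast
    linarith
  · obtain ⟨d0, d1⟩ := dual_ne l h0 h1
    refine mem_of hU hW hC hE hI hN (k := 0) ℚ l (l / (l - 1)) d0 d1 (hO.dual h1)
      (JJ_dual l h0 h1) hfr base ?_
    rw [Module.finrank_self]
    push_cast
    linarith

include hU hW hC hE hI hR hF in
theorem mem_succ {N : ℕ} (hN : 2 ∣ N) {A : ℝ} {k : ℕ} (h : Mem N A k) : Mem N A (k + 1) := by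
  obtain ⟨L, hL1, hL2, t, h0, h1, hO, hd, hA, hB⟩ := h
  have key := HT_step hW hR hF L t h0 h1
  have e : (6 - 8 * (1 / 2 : ℝ) ^ (k + 1)) * Real.log 2 * Module.finrank ℚ L =
      ((6 - 8 * (1 / 2 : ℝ) ^ k) * Real.log 2 * Module.finrank ℚ L) / 2 +
        3 * Real.log 2 * Module.finrank ℚ L := by
    rw [pow_succ]
    ring
  rcases le_total ((HT L (NN t) + HT L (NN (t / (t - 1)))) / 2) (HT L (NN t)) with h' | h'
  · refine mem_of hU hW hC hE hI hN (k := k) L t t h0 h1 hO rfl hd hA ?_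
    rw [e]
    linarith
  · obtain ⟨d0, d1⟩ := dual_ne t h0 h1
    refine mem_of hU hW hC hE hI hN (k := k) L t (t / (t - 1)) d0 d1 (hO.dual h1)
      (JJ_dual t h0 h1) hd hA ?_
    rw [e]
    linarith

include hU hW hC hE hI hR hF in
theorem mem_all {N : ℕ} (hN : 2 ∣ N) (l : ℚ) (h0 : l ≠ 0) (h1 : l ≠ 1) (hO : Out N ℚ l)
    (k : ℕ) : Mem N (HT ℚ (JJ l)) (k + 1) := by
  induction k with
  | zero => exact mem_one hU hW hC hE hI hR hF hN l h0 h1 hO
  | succ k ih => exact mem_succ hU hW hC hE hI hR hF hN ih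

include hU hW hC hE hI hR hF in
/-- for every `k` there is a curve over a field of degree at most `2 ^ k` -/
theorem piece {N : ℕ} (hN : 2 ∣ N) (l : ℚ) (h0 : l ≠ 0) (h1 : l ≠ 1) (hO : Out N ℚ l)
    (k : ℕ) : ∃ (L : Type) (_ : Field L) (_ : NumberField L) (t : L), t ≠ 0 ∧ t ≠ 1 ∧
      Out N L t ∧ Module.finrank ℚ L ≤ 2 ^ k ∧
      (Module.finrank ℚ L : ℝ) * (HT ℚ (JJ l) / 12 + k * Real.log 2 / 2 -
        2 / 3 * Real.log 2) ≤ HT L (JJ t) / 12 := by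
  have hlog : 0 < Real.log 2 := Real.log_pos one_lt_two
  rcases k with _ | k
  · refine ⟨ℚ, inferInstance, inferInstance, l, h0, h1, hO, by
      rw [Module.finrank_self, pow_zero], ?_⟩
    rw [Module.finrank_self]
    push_cast
    linarith
  · obtain ⟨L, hL1, hL2, t, g0, g1, g2, g3, g4, -⟩ :=
      mem_all hU hW hC hE hI hR hF hN l h0 h1 hO k
    refine ⟨L, hL1, hL2, t, g0, g1, g2, g3, ?_⟩
    have h2 : (0 : ℝ) ≤ (1 / 2 : ℝ) ^ (k + 1) := by positivity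
    have h3 : (0 : ℝ) ≤ Module.finrank ℚ L := Nat.cast_nonneg _
    have h4 : 0 ≤ (1 / 2 : ℝ) ^ (k + 1) * Real.log 2 * Module.finrank ℚ L := by positivity
    have h5 : (Module.finrank ℚ L : ℝ) * (HT ℚ (JJ l) / 12 + ((k + 1 : ℕ) : ℝ) * Real.log 2 / 2 -
        2 / 3 * Real.log 2) = ((HT ℚ (JJ l) + (6 * ((k + 1 : ℕ) : ℝ) -
          8 * (1 - (1 / 2 : ℝ) ^ (k + 1))) * Real.log 2) * Module.finrank ℚ L -
            8 * ((1 / 2 : ℝ) ^ (k + 1) * Real.log 2 * Module.finrank ℚ L)) / 12 := by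
      ring
    rw [h5]
    linarith

end

end Pool.Agent.K3h84.GD
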