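import Mathlib
import Pool.Agent.K3h84.GD.Tower2

/-!
# Growth of the Faltings height with the dimension: the assembly
-/

set_option autoImplicit false
set_option linter.unusedSectionVars false

namespace Pool.Agent.K3h84.GD

open NumberField IsDedekindDomain
open Pool.Agent.TH876.FH (jInv arch)

section Prime

variable {L : Type} [Field L] [NumberField L]

/-- the prime number below a prime ideal -/
theorem exists_below (v : HeightOneSpectrum (𝓞 L)) :
    ∃ p : ℕ, p.Prime ∧ (p : 𝓞 L) ∈ v.asIdeal := by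
  classical
  have h0 : ∃ n : ℕ, 0 < n ∧ (n : 𝓞 L) ∈ v.asIdeal := by
    refine ⟨Ideal.absNorm v.asIdeal, ?_, Ideal.absNorm_mem v.asIdeal⟩
    exact Nat.pos_of_ne_zero (Ideal.absNorm_ne_zero_of_nonZeroDivisors ⟨v.asIdeal,
      mem_nonZeroDivisors_of_ne_zero v.ne_bot⟩)
  obtain ⟨h1, h2⟩ := Nat.find_spec h0
  set n := Nat.find h0 with hn
  have hn1 : n ≠ 1 := by
    intro h
    rw [h, Nat.cast_one] at h2
    exact v.isPrime.ne_top ((Ideal.eq_top_iff_one _).2 h2)
  refine ⟨n, ?_, h2⟩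
  by_contra hp
  obtain ⟨m, hm1, hm2, hm3⟩ := Nat.exists_dvd_of_not_prime2 (by omega) hp
  obtain ⟨k, hk⟩ := hm1
  have hk0 : 0 < k := by
    rcases Nat.eq_zero_or_pos k with h | h
    · rw [h, mul_zero] at hk
      omega
    · exact h
  have hkn : k < n := by
    rw [hk]
    nlinarith
  rw [hk, Nat.cast_mul] at h2
  rcases v.isPrime.mem_or_mem h2 with h | h
  · exact Nat.find_min h0 (hn ▸ hm3) ⟨by omega, h⟩
  · exact Nat.find_min h0 (hn ▸ hkn) ⟨hk0, h⟩

end Prime

/-- numbers with `p`-adic valuation zero -/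
theorem PU_of_padic {p : ℕ} (hp : p.Prime) {l : ℚ} (h0 : l ≠ 0) (h : padicValRat p l = 0) :
    PU p l := by
  have := Fact.mk hp
  have hnum : l.num ≠ 0 := Rat.num_ne_zero.2 h0
  have hco := l.reduced
  have hdef : (padicValInt p l.num : ℤ) - padicValNat p l.den = 0 := by
    rw [← h]
    rfl
  have h1 : ¬ p ∣ l.den := by
    intro hd
    have h2 : 1 ≤ padicValNat p l.den := one_le_padicValNat_of_dvd l.den_ne_zero hd
    have h3 : 1 ≤ padicValInt p l.num := by omega
    have h4 : p ∣ l.num.natAbs := dvd_of_one_le_padicValNat h3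
    have := Nat.dvd_gcd h4 hd
    rw [hco] at this
    exact hp.one_lt.ne' (Nat.dvd_one.1 this)
  have h2 : ¬ p ∣ l.num.natAbs := by
    intro hd
    have h2 : 1 ≤ padicValNat p l.num.natAbs :=
      one_le_padicValNat_of_dvd (Int.natAbs_ne_zero.2 hnum) hd
    have h3 : 1 ≤ padicValNat p l.den := by
      have : padicValInt p l.num = padicValNat p l.num.natAbs := rfl
      omega
    exact h1 (dvd_of_one_le_padicValNat h3)
  refine ⟨⟨l.den, h1, ?_⟩, ⟨l.num.natAbs, h2, ?_⟩⟩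
  · have : (l.den : ℚ) * l = l.num := by
      rw [mul_comm]
      exact Rat.mul_den_eq_num l
    rw [this]
    have := isIntegral_algebraMap (R := ℤ) (A := ℚ) (x := l.num)
    simpa using this
  · have h5 : (l.num : ℚ) * l⁻¹ = l.den := by
      have : (l.num : ℚ) = l * l.den := (Rat.mul_den_eq_num l).symm
      rw [this]
      field_simp
    have h6 : IsIntegral ℤ ((l.den : ℕ) : ℚ) := by
      have := isIntegral_algebraMap (R := ℤ) (A := ℚ) (x := (l.den : ℤ))
      simpa using this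
    rcases Int.natAbs_eq l.num with h7 | h7
    · have : ((l.num.natAbs : ℕ) : ℚ) = l.num := by
        rw [← Int.cast_natCast (R := ℚ), ← h7]
      rw [this, h5]
      exact h6
    · have : ((l.num.natAbs : ℕ) : ℚ) = -l.num := by
        have h8 : ((l.num.natAbs : ℕ) : ℤ) = -l.num := by omega
        rw [← Int.cast_natCast (R := ℚ), h8, Int.cast_neg]
      rw [this, neg_mul, h5]
      exact h6.neg

theorem Out_rat {N : ℕ} {l : ℚ} (h0 : l ≠ 0) (h1 : l ≠ 1)
    (h : ∀ p : ℕ, p.Prime → ¬ p ∣ N → padicValRat p l = 0 ∧ padicValRat p (1 - l) = 0) :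
    Out N ℚ l := by
  intro p hp hpN
  obtain ⟨a, b⟩ := h p hp hpN
  refine ⟨?_, PU_of_padic hp h0 a, PU_of_padic hp (sub_ne_zero.2 (Ne.symm h1)) b⟩
  rw [Rat.numberField_discr]
  intro hd
  have := Int.natAbs_dvd_natAbs.2 hd
  simp only [Int.natAbs_natCast, Int.natAbs_one] at this
  exact hp.one_lt.ne' (Nat.dvd_one.1 this)

/-- the curve `y ^ 2 = x (x - 1) (x - t)` -/
def leg {L : Type} [Field L] (t : L) : WeierstrassCurve L := ⟨0, -(1 + t), 0, t, 0⟩

section Leg

variable {L : Type} [Field L] [CharZero L] (t : L)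

theorem leg_disc : (leg t).Δ = 16 * t ^ 2 * (1 - t) ^ 2 := by
  simp only [WeierstrassCurve.Δ, WeierstrassCurve.b₂, WeierstrassCurve.b₄, WeierstrassCurve.b₆,
    WeierstrassCurve.b₈, leg]
  ring

theorem leg_j (h0 : t ≠ 0) (h1 : t ≠ 1) : (leg t).c₄ ^ 3 / (leg t).Δ = JJ t := by
  have h2 : 1 - t ≠ 0 := sub_ne_zero.2 (Ne.symm h1)
  rw [leg_disc]
  simp only [WeierstrassCurve.c₄, WeierstrassCurve.b₂, WeierstrassCurve.b₄, leg, JJ]
  field_simp
  ring

theorem leg_ne (h0 : t ≠ 0) (h1 : t ≠ 1) : (leg t).Δ ≠ 0 := by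
  have h2 : 1 - t ≠ 0 := sub_ne_zero.2 (Ne.symm h1)
  rw [leg_disc]
  exact mul_ne_zero (mul_ne_zero (by norm_num) (pow_ne_zero 2 h0)) (pow_ne_zero 2 h2)

end Leg

/-- good reduction -/
theorem leg_good {N : ℕ} (hN : 2 ∣ N) {L : Type} [Field L] [NumberField L] (t : L) (h0 : t ≠ 0)
    (h1 : t ≠ 1) (hO : Out N L t) (v : HeightOneSpectrum (𝓞 L)) (hv : (N : 𝓞 L) ∉ v.asIdeal) :
    v.valuation L (leg t).a₁ ≤ 1 ∧ v.valuation L (leg t).a₂ ≤ 1 ∧ v.valuation L (leg t).a₃ ≤ 1 ∧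
    v.valuation L (leg t).a₄ ≤ 1 ∧ v.valuation L (leg t).a₆ ≤ 1 ∧ v.valuation L (leg t).Δ = 1 := by
  obtain ⟨p, hp, hpv⟩ := exists_below v
  have hpN : ¬ p ∣ N := by
    rintro ⟨m, rfl⟩
    apply hv
    rw [Nat.cast_mul]
    exact v.asIdeal.mul_mem_right _ hpv
  obtain ⟨-, g2, g3⟩ := hO p hp hpN
  have h2 : 1 - t ≠ 0 := sub_ne_zero.2 (Ne.symm h1)
  have e1 := g2.val hp v hpv h0
  have e2 := g3.val hp v hpv h2
  have e3 : v.valuation L (2 : L) = 1 := by
    have hp2 : ¬ p ∣ 2 := by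
      intro h
      exact hpN (((Nat.prime_dvd_prime_iff_eq hp Nat.prime_two).1 h) ▸ hN)
    have := val_nat v (not_mem v hp hpv hp2)
    exact_mod_cast this
  refine ⟨?_, ?_, ?_, ?_, ?_, ?_⟩
  · show v.valuation L 0 ≤ 1
    rw [map_zero]
    exact zero_le_one
  · show v.valuation L (-(1 + t)) ≤ 1
    rw [Valuation.map_neg]
    refine (Valuation.map_add _ _ _).trans (max_le ?_ e1.le)
    rw [map_one]
  · show v.valuation L 0 ≤ 1
    rw [map_zero]
    exact zero_le_one
  · exact e1.le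
  · show v.valuation L 0 ≤ 1
    rw [map_zero]
    exact zero_le_one
  · rw [leg_disc, show (16 : L) = 2 ^ 4 by norm_num, map_mul, map_mul, map_pow, map_pow, map_pow,
      e1, e2, e3]
    simp

/-- the height from the periods -/
theorem HT_period (hW : S_WD) {L : Type} [Field L] [NumberField L] (j : L)
    (τ : InfinitePlace L → UpperHalfPlane) (h : ∀ w, jInv (τ w) = w.embedding j) :
    (Module.finrank ℚ L : ℝ) * ((∑ᶠ v : HeightOneSpectrum (𝓞 L),
      Real.log (max (FinitePlace.mk v j) 1) + ∑ w : InfinitePlace L, (w.mult : ℝ) * arch (τ w)) /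
        (12 * Module.finrank ℚ L)) = HT L j / 12 := by
  have h1 : (Module.finrank ℚ L : ℝ) ≠ 0 := Nat.cast_ne_zero.2 Module.finrank_pos.ne'
  have h2 : ∑ w : InfinitePlace L, (w.mult : ℝ) * arch (τ w) =
      ∑ w : InfinitePlace L, (w.mult : ℝ) * FF (w.embedding j) :=
    Finset.sum_congr rfl fun w _ => by rw [← h w, FF_eq hW]
  rw [h2]
  unfold HT
  field_simp

end Pool.Agent.K3h84.GD
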