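import Mathlib
import Pool.Agent.K3h84.GD.Final
import Pool.Agent.TH876.FH.Ana
import Pool.Agent.TH876.FH.Hj
import Pool.Agent.Y729.FW.Ht
import Pool.Agent.Y729.FW.Surj

/-!
# Legendre curves of large height: `l = 2 ^ m`
-/

set_option autoImplicit false

namespace Pool.Agent.K3h84.GD

open NumberField IsDedekindDomain
open Pool.Agent.TH876.FH (jInv arch)

/-- the height of the Legendre curve in terms of the height of the parameter -/
theorem low (hW : S_WD) (δ : ℝ) (hδ : 0 < δ) : ∃ c : ℝ, ∀ l : ℚ, l ≠ 0 → l ≠ 1 →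
    (1 / 2 - δ) * Height.logHeight₁ l - c ≤ HT ℚ (JJ l) / 12 := by
  obtain ⟨c1, hc1⟩ := (Pool.Agent.TH876.FH.hj Pool.Agent.TH876.FH.ana ℚ).1 (2 * δ) (by positivity)
  obtain ⟨c2, hc0, hc2⟩ := Pool.Agent.Y729.FW.six_height
  refine ⟨|c1| + c2, fun l h0 h1 => ?_⟩
  have hJ : JJ l * (l ^ 2 * (1 - l) ^ 2) = 256 * (l ^ 2 - l + 1) ^ 3 := by
    unfold JJ
    rw [div_mul_cancel₀]
    have := sub_ne_zero.2 h1.symm
    positivity
  have h2 := (hc2 ℚ (JJ l) l h0 h1 hJ).1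
  rw [Module.finrank_self, Nat.cast_one, mul_one] at h2
  have hp : ∀ w : InfinitePlace ℚ, ∃ τ, jInv τ = w.embedding (JJ l) := fun w =>
    Pool.Agent.Y729.FW.j_surj _
  choose τ hτ using hp
  have h3 := hc1 (JJ l) τ hτ
  have h4 := HT_period hW (JJ l) τ hτ
  have h5 : 12 * (Module.finrank ℚ ℚ : ℝ) * Pool.Agent.TH876.FH.faltings (JJ l) τ =
      HT ℚ (JJ l) := by
    have : (Module.finrank ℚ ℚ : ℝ) * Pool.Agent.TH876.FH.faltings (JJ l) τ =
      HT ℚ (JJ l) / 12 := h4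
    rw [mul_assoc, this]
    ring
  rw [h5] at h3
  set h := Height.logHeight₁ l
  set H := HT ℚ (JJ l)
  have hh : 0 ≤ h := Height.zero_le_logHeight₁ l
  have h6 : 6 * h ≤ (1 + 2 * δ) * H + |c1| + c2 := by
    have := le_abs_self c1
    linarith
  have h7 : 0 < 1 + 2 * δ := by positivity
  have h8 : (1 - 2 * δ) * (6 * h) ≤ H + |c1| + c2 := by
    have e1 : 6 * h / (1 + 2 * δ) ≤ H + (|c1| + c2) := by
      rw [div_le_iff₀ h7]
      have : 0 ≤ 2 * δ * (|c1| + c2) := by positivity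
      nlinarith
    have e2 : (1 - 2 * δ) * (6 * h) ≤ 6 * h / (1 + 2 * δ) := by
      rw [le_div_iff₀ h7]
      have : 0 ≤ (2 * δ) ^ 2 * (6 * h) := by positivity
      nlinarith
    linarith
  have : 0 ≤ |c1| + c2 := by positivity
  linarith

/-- infinitely many `N` -/
theorem family (B : ℕ) : ∃ N m : ℕ, 1 ≤ m ∧ B ≤ N ∧ Squarefree N ∧ 2 ∣ N ∧ N ≤ 2 ^ (m + 1) ∧
    ∀ p : ℕ, p.Prime → ¬ p ∣ N → padicValRat p ((2 : ℚ) ^ m) = 0 ∧
      padicValRat p (1 - (2 : ℚ) ^ m) = 0 := by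
  obtain ⟨q, hq1, hq2⟩ := Nat.exists_infinite_primes (max B 3)
  have hq3 : 3 ≤ q := le_trans (le_max_right _ _) hq1
  set m := q - 1 with hm
  have hm1 : 1 ≤ m := by omega
  have hpos : 2 ≤ 2 ^ m := by
    calc 2 = 2 ^ 1 := rfl
      _ ≤ 2 ^ m := Nat.pow_le_pow_right (by norm_num) hm1
  set M := 2 * (2 ^ m - 1) with hM
  have hM0 : M ≠ 0 := by omega
  have hdvd : ∀ p : ℕ, p.Prime → (p ∣ UniqueFactorizationMonoid.radical M ↔ p ∣ M) := fun p hp =>
    (UniqueFactorizationMonoid.dvd_radical_iff_of_irreducible hp.prime.irreducible hM0)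
  have hqM : q ∣ M := by
    apply Dvd.dvd.mul_left
    haveI : Fact q.Prime := ⟨hq2⟩
    have h1 : (2 : ZMod q) ≠ 0 := by
      intro h
      have h2 : ((2 : ℕ) : ZMod q) = 0 := by exact_mod_cast h
      rw [ZMod.natCast_eq_zero_iff] at h2
      have := Nat.le_of_dvd (by norm_num) h2
      omega
    have h2 := ZMod.pow_card_sub_one_eq_one h1
    rw [← ZMod.natCast_eq_zero_iff, Nat.cast_sub (by omega)]
    push_cast
    rw [← hm] at h2
    rw [h2, sub_self]
  refine ⟨UniqueFactorizationMonoid.radical M, m, hm1, ?_,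
    UniqueFactorizationMonoid.squarefree_radical, ?_, ?_, fun p hp hpN => ?_⟩
  · have h1 := (hdvd q hq2).2 hqM
    exact (le_trans (le_max_left _ _) hq1).trans
      (Nat.le_of_dvd (Nat.pos_of_ne_zero UniqueFactorizationMonoid.radical_ne_zero) h1)
  · exact (hdvd 2 Nat.prime_two).2 (Dvd.intro _ rfl)
  · refine (Nat.le_of_dvd (Nat.pos_of_ne_zero hM0)
      UniqueFactorizationMonoid.radical_dvd_self).trans ?_
    rw [hM, pow_succ]
    omega
  · rw [hdvd p hp] at hpN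
    haveI : Fact p.Prime := ⟨hp⟩
    have hp2 : ¬ p ∣ 2 := fun h => hpN (h.trans (Dvd.intro _ rfl))
    have hp3 : ¬ p ∣ 2 ^ m - 1 := fun h => hpN (h.mul_left 2)
    constructor
    · have : ((2 : ℚ) ^ m) = ((2 ^ m : ℕ) : ℚ) := by push_cast; rfl
      rw [this, padicValRat.of_nat]
      norm_cast
      apply padicValNat.eq_zero_of_not_dvd
      exact fun h => hp2 (hp.dvd_of_dvd_pow h)
    · have : (1 - (2 : ℚ) ^ m) = -((2 ^ m - 1 : ℕ) : ℚ) := by
        rw [Nat.cast_sub (by omega)]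
        push_cast
        ring
      rw [this, padicValRat.neg, padicValRat.of_nat]
      norm_cast
      exact padicValNat.eq_zero_of_not_dvd hp3

theorem height_two_pow (m : ℕ) : Height.logHeight₁ ((2 : ℚ) ^ m) = m * Real.log 2 := by
  rw [Height.logHeight₁_pow]
  congr 1
  have := Rat.logHeight₁_natCast 2
  exact_mod_cast this

end Pool.Agent.K3h84.GD
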