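import Mathlib
import Pool.Agent.K3h84.GD.Stm
import Pool.Agent.Y729.FW.Surj

/-!
# The equations between `Δ(τ) / Δ(2 τ)`, `j(τ)` and `j(2 τ)`
-/

set_option autoImplicit false

namespace Pool.Agent.K3h84.GD

open UpperHalfPlane ModularForm NumberField Filter Topology
open Pool.Agent.TH876.FH (jInv arch)
open scoped MatrixGroups Manifold

theorem fa_ne (τ : ℍ) : fa τ ≠ 0 :=
  div_ne_zero (mul_ne_zero (by norm_num) (discriminant_ne_zero _)) (discriminant_ne_zero _)

theorem fb_ne (τ : ℍ) : fb τ ≠ 0 :=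
  div_ne_zero (discriminant_ne_zero _) (discriminant_ne_zero _)

theorem fc_ne (τ : ℍ) : fc τ ≠ 0 :=
  div_ne_zero (discriminant_ne_zero _) (discriminant_ne_zero _)

/-- symmetric functions of the three functions are invariant -/
theorem inv_of_trans (hT : S_TRANS) (P : ℂ → ℂ → ℂ → ℂ) (h1 : ∀ x y z, P x y z = P y x z)
    (h2 : ∀ x y z, P x y z = P x z y) (g : SL(2, ℤ)) (τ : ℍ) :
    P (fa (g • τ)) (fb (g • τ)) (fc (g • τ)) = P (fa τ) (fb τ) (fc τ) := by
  have hg : g ∈ Subgroup.closure ({ModularGroup.S, ModularGroup.T} : Set SL(2, ℤ)) := by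
    rw [SpecialLinearGroup.SL2Z_generators]
    trivial
  induction hg using Subgroup.closure_induction generalizing τ with
  | mem x hx =>
    rcases hx with rfl | rfl
    · obtain ⟨-, a, b, c⟩ := hT τ
      rw [a, b, c, h1]
    · obtain ⟨⟨a, b, c⟩, -⟩ := hT τ
      rw [a, b, c, h2]
  | one => rw [one_smul]
  | mul x y _ _ hx hy => rw [mul_smul, hx, hy]
  | inv x _ hx =>
    have := hx (x⁻¹ • τ)
    rw [smul_inv_smul] at this
    exact this.symm

section

variable (hC : S_CONST) (hT : S_TRANS) (hH : S_HOL) (hP : S_PROD) (h1 : S_LIM1) (h2 : S_LIM2)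

include hC hT hH h1 in
theorem sum_eq (τ : ℍ) : fa τ + fb τ + fc τ = -48 := by
  obtain ⟨ha, hb, hc⟩ := hH
  exact hC (fun τ => fa τ + fb τ + fc τ) (-48) ((ha.add hb).add hc)
    (fun g τ => inv_of_trans hT (fun x y z => x + y + z) (fun x y z => by ring)
      (fun x y z => by ring) g τ) h1 τ

theorem holo_j : MDifferentiable 𝓘(ℂ) 𝓘(ℂ) jInv := by
  have hd1 : DifferentiableOn ℂ ((ModularForm.E₄ : ℍ → ℂ) ∘ ofComplex) {z : ℂ | 0 < z.im} :=
    mdifferentiable_iff.1 (ModularFormClass.holo ModularForm.E₄)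
  have hd2 : DifferentiableOn ℂ ((discriminant : ℍ → ℂ) ∘ ofComplex) {z : ℂ | 0 < z.im} :=
    mdifferentiable_iff.1 (ModularFormClass.holo CuspForm.discriminant)
  rw [mdifferentiable_iff]
  exact (hd1.pow 3).div hd2 (fun z _ => discriminant_ne_zero _)

include hC hT hH h2 in
theorem inv_eq (τ : ℍ) : 4096 * (1 / fa τ + 1 / fb τ + 1 / fc τ) - jInv τ = -768 := by
  obtain ⟨ha, hb, hc⟩ := hH
  have hj := holo_j
  have key : MDifferentiable 𝓘(ℂ) 𝓘(ℂ)
      (fun τ => 4096 * (1 / fa τ + 1 / fb τ + 1 / fc τ) - jInv τ) := by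
    rw [mdifferentiable_iff] at ha hb hc hj ⊢
    have ga : DifferentiableOn ℂ (fun z => 1 / (fa ∘ ofComplex) z) {z : ℂ | 0 < z.im} :=
      (differentiableOn_const 1).div ha (fun z _ => fa_ne _)
    have gb : DifferentiableOn ℂ (fun z => 1 / (fb ∘ ofComplex) z) {z : ℂ | 0 < z.im} :=
      (differentiableOn_const 1).div hb (fun z _ => fb_ne _)
    have gc : DifferentiableOn ℂ (fun z => 1 / (fc ∘ ofComplex) z) {z : ℂ | 0 < z.im} :=
      (differentiableOn_const 1).div hc (fun z _ => fc_ne _)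
    exact (((ga.add gb).add gc).const_mul 4096).sub hj
  refine hC (fun τ => 4096 * (1 / fa τ + 1 / fb τ + 1 / fc τ) - jInv τ) (-768) key
    (fun g τ => ?_) h2 τ
  have := inv_of_trans hT (fun x y z => 4096 * (1 / x + 1 / y + 1 / z)) (fun x y z => by ring)
      (fun x y z => by ring) g τ
  rw [this, Pool.Agent.Y729.FW.j_smul]

include hC hT hH hP h1 h2 in
/-- the cubic equation -/
theorem cubic (τ : ℍ) (X : ℂ) :
    (X + 16) ^ 3 - jInv τ * X = (X - fa τ) * (X - fb τ) * (X - fc τ) := by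
  have e1 := sum_eq hC hT hH h1 τ
  have e2 := inv_eq hC hT hH h2 τ
  have e3 := hP τ
  have na := fa_ne τ
  have nb := fb_ne τ
  have nc := fc_ne τ
  have e4 : fa τ * fb τ + fb τ * fc τ + fc τ * fa τ = 768 - jInv τ := by
    have h5 : 1 / fa τ + 1 / fb τ + 1 / fc τ =
        (fa τ * fb τ + fb τ * fc τ + fc τ * fa τ) / (fa τ * fb τ * fc τ) := by
      field_simp
      ring
    rw [h5, e3] at e2
    have h6 : (4096 : ℂ) * ((fa τ * fb τ + fb τ * fc τ + fc τ * fa τ) / -4096) =
        -(fa τ * fb τ + fb τ * fc τ + fc τ * fa τ) := by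
      field_simp
    rw [h6] at e2
    linear_combination -e2
  linear_combination (X ^ 2) * e1 - X * e4 + e3

include hC hT hH hP h1 h2 in
theorem root2 : S_ROOT2 := by
  intro τ h hh
  have nd := discriminant_ne_zero τ
  have nd2 := discriminant_ne_zero (dbl τ)
  have hne : h ≠ 0 := by
    rintro rfl
    rw [zero_mul] at hh
    exact nd hh
  have hfa : fa τ = 4096 / h := by
    unfold fa
    rw [hh]
    field_simp
  have c1 := cubic hC hT hH hP h1 h2 τ (4096 / h)
  rw [hfa, sub_self, zero_mul, zero_mul] at c1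
  have e : hlf (dbl τ) = τ := by
    ext1
    show (2 * (τ : ℂ)) * ((1 / 2 : ℝ) : ℂ) = τ
    push_cast
    ring
  have hfb : fb (dbl τ) = h := by
    unfold fb
    rw [e, hh]
    field_simp
  have c2 := cubic hC hT hH hP h1 h2 (dbl τ) h
  rw [hfb, sub_self, mul_zero, zero_mul] at c2
  refine ⟨?_, by linear_combination -c2⟩
  have c3 : ((4096 / h + 16) ^ 3 - jInv τ * (4096 / h)) * h ^ 3 = 0 := by rw [c1, zero_mul]
  have c4 : ((4096 / h + 16) ^ 3 - jInv τ * (4096 / h)) * h ^ 3 =
      4096 * ((h + 256) ^ 3 - jInv τ * h ^ 2) := by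
    field_simp
    ring
  rw [c4] at c3
  have c5 := (mul_eq_zero.1 c3).resolve_left (by norm_num)
  linear_combination c5

include hC hT hH hP h1 h2 in
theorem root : S_ROOT := by
  intro τ h hh
  have hne : h ≠ 0 := by
    rintro rfl
    norm_num at hh
  have c1 := cubic hC hT hH hP h1 h2 τ (4096 / h)
  have c4 : ((4096 / h + 16) ^ 3 - jInv τ * (4096 / h)) * h ^ 3 =
      4096 * ((h + 256) ^ 3 - jInv τ * h ^ 2) := by
    field_simp
    ring
  rw [hh, sub_self, mul_zero] at c4
  rw [(mul_eq_zero.1 c4).resolve_right (pow_ne_zero 3 hne)] at c1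
  have key : ∃ g : SL(2, ℤ), fa (g • τ) = 4096 / h := by
    rcases mul_eq_zero.1 c1.symm with h3 | h3
    · rcases mul_eq_zero.1 h3 with h4 | h4
      · exact ⟨1, by rw [one_smul]; linear_combination -h4⟩
      · refine ⟨ModularGroup.S, ?_⟩
        rw [(hT τ).2.1]
        linear_combination -h4
    · refine ⟨ModularGroup.S * ModularGroup.T, ?_⟩
      rw [mul_smul, (hT _).2.1, (hT τ).1.2.1]
      linear_combination -h3
  obtain ⟨g, hg⟩ := key
  have nd := discriminant_ne_zero (g • τ)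
  have h5 : discriminant (g • τ) = h * discriminant (dbl (g • τ)) := by
    unfold fa at hg
    rw [div_eq_div_iff nd hne] at hg
    have : (4096 : ℂ) * (discriminant (dbl (g • τ)) * h - discriminant (g • τ)) = 0 := by
      linear_combination hg
    have h6 := (mul_eq_zero.1 this).resolve_left (by norm_num)
    linear_combination -h6
  exact ⟨g, h5, (root2 hC hT hH hP h1 h2 (g • τ) h h5).2⟩

end

end Pool.Agent.K3h84.GD
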